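import Mathlib
import Pool.Agent.Lib.MP_44a246_ntTV.TV50

/-!
# Vojta's inequality with truncated counting on arbitrary varieties over function fields, for
generic forms of log general type

Fix `p ≥ 1`, `g` and `ε > 0`. There is a number `r₀` with the following property. Let `r`, `c`, `e`
be natural numbers with `e ≥ min (c, ⌊(c + p) / 2⌋)` and `r + e ≥ r₀` (for `c = 0` and `r ≥ r₀` one
can take `e = 0`), and let `d₁, …, d_p ≥ 1` be any degrees, `s = d₁ + … + d_p`.

Let `κ` be an algebraically closed field of characteristic zero, `K` a function field of one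
variable over `κ`, and `k` a subfield of `K`. Let `A` be a set of indices, and let `f i` be finitely
many polynomials over `k` in the variables `t_j` (`j ∈ A`) and `x_0, …, x_n`, weighted homogeneous,
where `t_j` has the weight `d j` and the `x_l` have the weight `1`, such that the closure `V` of the
image in `P^n` of the zero set of the `f i` has dimension at most `r`. Let `H j` be forms of degree
`d j` over `K` in `x_0, …, x_n` (`j = 1, …, p`), whose `M` coefficients generate over `k` a field of
transcendence degree at least `M - c` (for `c = 0` this means that the coefficients are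
algebraically independent over `k`; they may be constants), and let `S` be a finite set of places
of `K`. Let `X` be the set of the points `x` of `P^n` with `f i (H (x), x) = 0` for all `i` at which
the matrix `(∂ f i / ∂ t_j)` (`j ∈ A`) has the rank `|A|`.

Let `m` be a natural number, `b = |A| + max (m, 1) - 2 (r + e) - 1 + s`, and let `θ ≥ 0` be a real
number with `θ < b` and `θ + ε ≤ s - (r + e + 1)`.

Then there are finitely many forms `G` over `K`, whose set of common zeros in the affine space has
dimension at most `m` (so that it has dimension at most `m - 1` in `P^n`, and is empty if `m = 0`),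
and a constant `C`, such that for every finite extension `L` of `K` and every point `x` of `X` over
`L` with `H j (x) ≠ 0` for all `j ∉ A`, which is not a common zero of the forms `G`, the height
`h(x)` (over `L`, not normalised) satisfies

`θ h(x) ≤ N(x) + deg Ram(L/K) + C [L : K]` if `[L : K] ≤ g`, and
`θ h(x) ≤ N(x) + C deg Ram(L/K) + C [L : K]` if `[L : K] > g`,

where `N(x)` is the number of the places `w` of `L`, not over `S`, with
`|H j (x)|_w < |x|_w ^ (d j)` for some `j` not in `A`: the truncated counting function of the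
divisor `D = ∑ {H j = 0}` (`j` not in `A`) on `X`.

Remarks.
* For `r ≥ r₀` there is no condition on the degrees except the necessary one (`s ≥ r + 2` if
  `c = 0`), and there is no bound for `θ`: `r₀` depends only on `p`, `g` and `ε`.
* Let `r < r₀` and take `e = r₀ - r` (for small `c`). This loses at most `2 r₀` in `b`; so for every
  `θ` all but finitely many types `(r; c; d₁, …, d_p)` with `r + c < r₀` have the inequality.

Examples.
* `V = P^r`, `c = e = 0` and `m = r - |A| ≥ 1`: then `X` is the complete intersection `H j = 0`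
  (`j ∈ A`), `K_X + D = O(b)` with `b = s - r - 1`, and one can take `θ = b - ε`. For the points of
  degree at most `g` this is Vojta's inequality `h_{K+D} ≤ N + ε h + d + O(1)` outside of a proper
  closed subset, for every `X` (also `X = P^r`) and every `D`, with `A = O(1)`.
* `f i = t_i` for `i ∈ A` and the equations `F l (x)` of an arbitrary variety `V` of dimension `r`
  in `P^n`: `X` is the intersection of `V` with the hypersurfaces `H j = 0` (`j ∈ A`), and `D` is
  the sum of its intersections with the other hypersurfaces `H j = 0`.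
* `f 1 = t_1 ^ l - F (x)` with `deg F = l d_1`, and the equations of `V` (`A = {1}`): `X` is the
  part of `V` with `H 1 (x) ^ l = F (x)` (for `l ≥ 2` outside `F (x) = 0`).
-/

namespace Pool.Agent.Results.MP_44a246_nt.ArbitraryVarieties

open Pool.Agent.Lib.MP_44a246_nt MvPolynomial

universe u v w x

section

variable {κ k K L : Type*} [Field κ] [Field k] [Field K] [Field L] {n p : ℕ} {ι : Type}

/-- The value at the point `(H (x), x)` of a polynomial over `k` in the variables `t_1, ..., t_p`
and `x_0, ..., x_n`. -/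
noncomputable def ev [Algebra k L] [Algebra K L] (H : Fin p → MvPolynomial (Fin (n + 1)) K)
    (x : Fin (n + 1) → L) (f : MvPolynomial (Fin p ⊕ Fin (n + 1)) k) : L :=
  aeval (Sum.elim (fun j => aeval x (H j)) x : Fin p ⊕ Fin (n + 1) → L) f

/-- The dimension of the ring of the polynomials in `x_0, ..., x_n` modulo those which are in the
ideal of the `f i`: the dimension of the closure of the image of the zero set of the `f i` in the
affine space with the coordinates `x_0, ..., x_n`. -/
noncomputable def imDim (f : ι → MvPolynomial (Fin p ⊕ Fin (n + 1)) k) : WithBot ℕ∞ :=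
  ringKrullDim (MvPolynomial (Fin (n + 1)) k ⧸ (Ideal.span (Set.range f)).comap
    (rename (Sum.inr : Fin (n + 1) → Fin p ⊕ Fin (n + 1))))

/-- The equations: weighted homogeneous polynomials in the `t_j` (`j ∈ A`) and in `x_0, ..., x_n`;
the image of their zero set in `P^n` has dimension at most `r`. -/
def Eqs (r : ℕ) (d : Fin p → ℕ) (A : Finset (Fin p))
    (f : ι → MvPolynomial (Fin p ⊕ Fin (n + 1)) k) : Prop :=
  (∀ i, ∃ e, (f i).IsWeightedHomogeneous (Sum.elim d fun _ => 1) e) ∧
    (∀ i, ∀ j ∉ A, Sum.inl j ∉ (f i).vars) ∧ imDim f ≤ ((r + 1 : ℕ) : WithBot ℕ∞)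

/-- The coefficients of the forms `H j` of degrees `d j` generate over `k` a field of transcendence
degree at least (the number of the monomials of these degrees) `- c`. -/
def Gen (k : Type*) {K : Type*} [Field k] [Field K] [Algebra k K] {n : ℕ} (d : Fin p → ℕ)
    (H : Fin p → MvPolynomial (Fin (n + 1)) K) (c : ℕ) : Prop :=
  (Nat.card {I : Fin p × (Fin (n + 1) →₀ ℕ) // I.2.degree = d I.1} : Cardinal) ≤
    Algebra.trdeg k (IntermediateField.adjoin k
      (Set.range fun I : {I : Fin p × (Fin (n + 1) →₀ ℕ) // I.2.degree = d I.1} =>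
        (H I.1.1).coeff I.1.2)) + c

/-- The points of `X` which are not on `D`. -/
def OnX [Algebra k L] [Algebra K L] (f : ι → MvPolynomial (Fin p ⊕ Fin (n + 1)) k)
    (A : Finset (Fin p)) (H : Fin p → MvPolynomial (Fin (n + 1)) K) (x : Fin (n + 1) → L) : Prop :=
  x ≠ 0 ∧ (∀ i, ev H x (f i) = 0) ∧
    (∃ i : A → ι, (Matrix.of fun a b : A =>
      ev H x (pderiv (Sum.inl (b : Fin p)) (f (i a)))).det ≠ 0) ∧
    ∀ j ∉ A, aeval x (H j) ≠ 0

/-- The truncated counting function: the number of the places `w` of `L`, not over `S`, with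
`|H j (x)|_w < |x|_w ^ (d j)` for some `j` not in `A`. -/
noncomputable def trunc [Algebra κ K] [Algebra κ L] [Algebra K L] (S : Set (Place κ K))
    (d : Fin p → ℕ) (A : Finset (Fin p)) (H : Fin p → MvPolynomial (Fin (n + 1)) K)
    (x : Fin (n + 1) → L) : ℕ :=
  Set.ncard {w : Place κ L | (∀ v ∈ S, ¬ (w.1.comap (algebraMap K L)).IsEquiv v.1) ∧
    ∃ j, j ∉ A ∧ w.1 (aeval x (H j)) < vmax w.1 x ^ d j}

/-- The inequality `θ h(x) ≤ N(x) + ρ deg Ram(L/K) + C [L : K]`, where `ρ = 1` if `[L : K] ≤ g` and
`ρ = C` if not, for all points `x` of `X` over `L` which are not on `D` and not in a closed subset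
of dimension at most `m` of the affine space. -/
def Bound (κ : Type u) {K : Type v} {k : Type x} [Field κ] [Field K] [Field k] [Algebra κ K]
    [Algebra k K] (f : ι → MvPolynomial (Fin p ⊕ Fin (n + 1)) k)
    (d : Fin p → ℕ) (A : Finset (Fin p)) (H : Fin p → MvPolynomial (Fin (n + 1)) K)
    (S : Set (Place κ K)) (m g : ℕ) (θ : ℝ) : Prop :=
  ∃ (b : ℕ) (G : Fin b → MvPolynomial (Fin (n + 1)) K), (∀ i, ∃ E, (G i).IsHomogeneous E) ∧
    ringKrullDim (MvPolynomial (Fin (n + 1)) K ⧸ Ideal.span (Set.range G)) ≤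
      (m : WithBot ℕ∞) ∧
    ∃ C : ℕ, ∀ (L : Type w) [Field L] [Algebra K L] [FiniteDimensional K L] [Algebra κ L]
      [IsScalarTower κ K L] [Algebra k L] [IsScalarTower k K L] (x : Fin (n + 1) → L),
      OnX f A H x →
      θ * height κ x ≤ trunc S d A H x +
          (if Module.finrank K L ≤ g then 1 else (C : ℝ)) * ramDeg κ L K +
          C * Module.finrank K L ∨
        ∀ i, aeval x (G i) = 0

end

/-- The admissible constants `θ`: `θ < |A| + max (m, 1) - 2 R - 1 + s` and `θ + ε ≤ s - (R + 1)`,
where `s` is the sum of the `d j`. -/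
def Adm {p : ℕ} (ε : ℝ) (d : Fin p → ℕ) (A : Finset (Fin p)) (m R : ℕ) (θ : ℝ) : Prop :=
  0 ≤ θ ∧ θ + ε ≤ ∑ j, (d j : ℝ) - (R + 1) ∧
    θ < (A.card : ℝ) + max m 1 - 2 * R - 1 + ∑ j, (d j : ℝ)

theorem result (p g : ℕ) (hp : 1 ≤ p) (ε : ℝ) (hε : 0 < ε) : ∃ r₀ : ℕ,
    ∀ (r c e : ℕ) (d : Fin p → ℕ), min c ((c + p) / 2) ≤ e → r₀ ≤ r + e → (∀ j, 1 ≤ d j) →
    ∀ {κ : Type u} {K : Type v} [Field κ] [IsAlgClosed κ] [CharZero κ] [Field K] [Algebra κ K]
      (t : K) (_ : Transcendental κ t)
      (_ : FiniteDimensional (IntermediateField.adjoin κ {t}) K)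
      {k : Type x} [Field k] [Algebra k K] {n m : ℕ} (_ : r ≤ n) {A : Finset (Fin p)}
      {ι : Type} [Finite ι] {f : ι → MvPolynomial (Fin p ⊕ Fin (n + 1)) k} (_ : Eqs r d A f)
      {H : Fin p → MvPolynomial (Fin (n + 1)) K} (_ : ∀ j, (H j).IsHomogeneous (d j))
      (_ : Gen k d H c) {S : Set (Place κ K)} (_ : S.Finite) {θ : ℝ}
      (_ : Adm ε d A m (r + e) θ), Bound.{u, v, w, x} κ f d A H S m g θ := by
  obtain ⟨r₀, h⟩ := Pool.Agent.Lib.MP_44a246_ntTV.final_all.{u, v, w, x} p g hp ε hε
  refine ⟨r₀, fun r c e₀ d h1 h2 h3 κ K _ _ _ _ _ t ht hfin k _ _ n m h6 A ι _ f hf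
    H h10 h11 S h12 θ hθ => ?_⟩
  have hcK : CharZero K := charZero_of_injective_algebraMap (algebraMap κ K).injective
  have hck : CharZero k := (algebraMap k K).charZero
  obtain ⟨hf1, hf2, hf3⟩ := hf
  obtain ⟨h13, h15, h16⟩ := hθ
  choose e he using hf1
  have hs : ((∑ j, d j : ℕ) : ℝ) = ∑ j, (d j : ℝ) := by push_cast; rfl
  have h17 : ((A.card + ∑ j, d j + max m 1 : ℕ) : ℝ) - (2 * (r + e₀ : ℕ) + 1) =
      (A.card : ℝ) + max m 1 - 2 * (r + e₀ : ℕ) - 1 + ∑ j, (d j : ℝ) := by
    push_cast
    ring
  obtain ⟨b, G, hG1, hG2, C, hC⟩ := h r c e₀ d h1 h2 h3 ⟨t, ht, hfin⟩ h6 he hf2 hf3 h10 h11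
    (m := m) h12 h13 (by
      rw [hs]
      exact h15) (by
      rw [h17]
      exact h16)
  refine ⟨b, G, hG1, hG2, C, fun L _ _ _ _ _ _ _ x hx => ?_⟩
  obtain ⟨hx0, hx1, hx2, hx3⟩ := hx
  rcases hC L x hx0 hx1 hx2 hx3 with ⟨h7, h8⟩ | h
  · left
    have hC0 : (0 : ℝ) ≤ C := Nat.cast_nonneg C
    split_ifs with hg
    · refine (h8 hg).trans ?_
      have h9 : (1 : ℝ) ≤ Module.finrank K L := by
        exact_mod_cast (Module.finrank_pos : 0 < Module.finrank K L)
      have h14 : (C : ℝ) * 1 ≤ C * Module.finrank K L := mul_le_mul_of_nonneg_left h9 hC0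
      have h18 : trunc S d A H x = Set.ncard {w : Place κ L |
          (∀ v ∈ S, ¬ (w.1.comap (algebraMap K L)).IsEquiv v.1) ∧
            ∃ j, j ∉ A ∧ w.1 (aeval x (H j)) < vmax w.1 x ^ d j} := rfl
      rw [h18]
      push_cast
      linarith
    · refine h7.trans (le_of_eq ?_)
      have h18 : trunc S d A H x = Set.ncard {w : Place κ L |
          (∀ v ∈ S, ¬ (w.1.comap (algebraMap K L)).IsEquiv v.1) ∧
            ∃ j, j ∉ A ∧ w.1 (aeval x (H j)) < vmax w.1 x ^ d j} := rfl
      rw [h18]
      push_cast
      ring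
  · exact Or.inr h

end Pool.Agent.Results.MP_44a246_nt.ArbitraryVarieties
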