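import Mathlib
import Pool.Agent.Lib.MP_44a246_ntFB.FB0D
import Pool.Agent.Lib.MP_44a246_ntFB.FB14
import Pool.Agent.Lib.MP_44a246_ntMB.MB70

/-!
# Vojta's conjecture with truncated counting function for towers of fibrations in curves

Let `κ` be an algebraically closed field of characteristic zero and `K` a function field of one
variable over `κ`. Let `X` be a variety over `K`, with a generic point `(y₀, x₀ 0, …, x₀ s)` with
coordinates in an algebraically closed field `Ω`, and let `Y` be the variety with the generic point
`y₀ = (y₀ 1, …, y₀ b)`. `Y` is ARBITRARY; `b = 0` is allowed, and then `Y` is a point. Suppose that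
the fibres of the projections `(y, x 0, …, x l) ↦ (y, x 0, …, x (l - 1))` of `X` have dimension at
most one for all `l ≤ s`, so that

`X = X_s → X_{s-1} → … → X_0 → Y`

is a tower of families of curves. On the geometric generic fibre of `X_l` over `X_{l-1}` let `D l` be
the divisor which is given by polynomials `H l j` in `y, x 0, …, x l`; it may be empty. Let `c l` be
a real number with

`c l · deg ≤ 2 g - 2 + #(D l)`,

where `g` is the genus of the geometric generic fibre and `deg` is the degree of `x l` on it
(definitions `Slope` and `Tower`). For `l < s` suppose that `c l > 2 (r - 1)`. There is no other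
condition: the coefficients of the equations of the fibres are arbitrary, the families may be
isotrivial or not, and the genus of the last fibration is arbitrary.

Then for every finite set `S` of places of `K` and every `ε > 0` there are a polynomial `G` which
does not vanish on `X` and a constant `C` such that for all points `(y, x)` of `X` of degree at
most `r` over `K` with `G (y, x) ≠ 0`:

`h(x l) ≤ B` for all `l < s`, and `(c s - ε) h(x s) ≤ N s + R + B`, `B = C (1 + h(y) + ∑ l < s, N l)`.

Here `h` is the height (definition `hgt`), `N l` (definition `meet`) is the truncated counting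
function: the number of the places outside `S` where the point meets the divisor `D l`, each counted
only once, and `R` (definition `ramDeg`) is the degree of the ramification of the field of the point
over `K`.

For `b = 0` and `D l = ∅` for `l < s`, `B` is a constant. Then this is Vojta's inequality (Q1) for `X`,
every normal crossings divisor on `X` and the points of degree at most `r`. For example (`s = 1`,
`r = 1`), let `X` be a surface with a map to an isotrivial curve of genus at least two: then the
`K`-rational points may lie on infinitely many fibres, and the inequality is uniform in the fibre.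
The same is true over every base `Y` such that the heights `h(y)` are bounded.
-/

namespace Pool.Agent.Results.MP_44a246_nt.CurveFibrations

open Pool.Agent.Lib.MP_44a246_nt
open Pool.Agent.Lib.MP_44a246_ntFB
open MvPolynomial

universe u v w u₁

theorem result {κ : Type u} {K : Type v} [Field κ] [IsAlgClosed κ] [CharZero κ] [Field K]
    [CharZero K] [Algebra κ K] (t : K) (ht : Transcendental κ t)
    (hfin : FiniteDimensional (IntermediateField.adjoin κ {t}) K)
    (S : Set (Place κ K)) (hS : S.Finite)
    {Ω : Type u₁} [Field Ω] [IsAlgClosed Ω] [Algebra K Ω] (b s : ℕ) (n q : ℕ → ℕ)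
    (y₀ : Fin b → Ω) (x₀ : ∀ l : ℕ, Fin (n l) → Ω) (c : ℕ → ℝ)
    (H : ∀ l : ℕ, Fin (q l + 1) →
      MvPolynomial ((Fin b ⊕ (Σ i : Fin l, Fin (n i))) ⊕ Fin (n l)) K)
    (d : ∀ l : ℕ, Fin (q l + 1) → ℕ) (hT : Tower K y₀ x₀ s H d c)
    (r : ℕ) (hlow : ∀ l < s, 2 * ((r : ℝ) - 1) < c l) (ε : ℝ) (hε : 0 < ε) :
    ∃ (G : MvPolynomial (Fin b ⊕ (Σ i : Fin (s + 1), Fin (n i))) K) (C : ℕ),
      aeval (low y₀ x₀ (s + 1)) G ≠ 0 ∧
      ∀ (L : Type w) [Field L] [Algebra K L] [FiniteDimensional K L] [Algebra κ L]
        [IsScalarTower κ K L], Module.finrank K L ≤ r →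
      ∀ (y : Fin b → L) (x : ∀ l : ℕ, Fin (n l) → L),
        OnX K y₀ x₀ s y x → aeval (low y x (s + 1)) G ≠ 0 →
      ∀ B : ℝ, B = C * (1 + hgt κ y + lowCount κ H d S s y x) →
        (∀ l < s, hgt κ (x l) ≤ B) ∧
        (c s - ε) * hgt κ (x s) ≤
          meet κ K (H s) (d s) S (low y x s) (x s) + ramDeg κ L K + B := by
  obtain ⟨G, C, hG, hC⟩ := tower_gen.{u, v, w} ⟨t, ht, hfin⟩
    (Pool.Agent.Lib.MP_44a246_ntMB.myp κ) r s (y₀ := y₀) (x₀ := x₀) (c := c) (H := H) (d := d)
    (fun l hl => (hT l hl).1) (fun l hl => (hT l hl).2.1) (fun l hl => (hT l hl).2.2) hlow hS hε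
  refine ⟨G, C, hG, ?_⟩
  intro L _ _ _ _ _ hr y x hX hne B hB
  have h1 : B = C * (1 + hgt κ y +
      ∑ i ∈ Finset.range s, (meet κ K (H i) (d i) S (low y x i) (x i) : ℝ)) := by
    rw [hB]
    unfold lowCount
    push_cast
    rfl
  rw [h1]
  exact hC L hr y x hX hne

end Pool.Agent.Results.MP_44a246_nt.CurveFibrations
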