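import Mathlib
import Pool.Agent.Lib.MP_44a246_ntFG.FG43

/-!
# Function fields: `H₀ + ∑ a_j P_j ^ e = 0` with few independent parameters, for all `H₀` at once

Let `K` be a function field of one variable over an algebraically closed field `κ` of characteristic
zero, `k` a subfield of `K` of finite transcendence degree over the rational numbers (everything
which is defined by finitely many equations is defined over such a field) and `V = {g = 0}` a closed
subset of `P^N` over `k` of dimension at most `n`. Let `P_j = ∑ A_jl z_l` (`j = 1, ..., q`) be linear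
combinations over `k` of forms `z_0, ..., z_r` (`r ≥ 1`) of degree `δ ≥ 1` over `k` without common
zero on `V`, such that `Φ (A) ≠ 0`, where `Φ` is a polynomial over the rational numbers, different
from zero, which depends only on the numbers `q` and `r`. Let `a_1, ..., a_q` be elements of `K` such
that the `a_j`, `j` in `J`, generate over `k` a field of transcendence degree at least `|J| - c`, for
all sets `J` of at most `s` indices; let

`H = a_1 P_1 ^ e + ... + a_q P_q ^ e`.

Let `ν = n + c` or `ν = n + c + 1` and

(Few) `s = ν + 1`, `q ≥ 4 r + ν - n - 1` and `e ≥ r q ^ 3 (n + θ + 2)`, or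

(All) `s = q`, `q ≥ 2 r + ν - n` and `e ≥ r (ν + 1) ^ 3 (n + θ + 2)`.

Then for every finite set `S` of places of `K` there is a constant `C` such that for all finite
extensions `L` of `K`, all points `x` of `V` over `L` (with a coordinate `x_l = 1`) and all elements
`G` of `L` which are algebraic over the field `k (x)` generated by the coordinates, for instance

`G = H₀ (x)`, where `H₀` is an ARBITRARY form of degree `e δ` over `k`,

with `G + H (x) = 0` or `ν = n + c + 1`, the height `h (x)` (over `L`, not normalised) satisfies

`θ h (x) ≤ N + deg Ram (L / K) + C [L : K]`,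

where `N` is the number of the places `w` of `L`, not over `S`, with
`|G + H (x)|_w ≠ |x|_w ^ (e δ)` (and `0` if `G + H (x) = 0`). Moreover

`(θ - 2 ([L : K] - 1)) h (x) ≤ N + C [L : K]`

if `L` is generated over `K` by the quotients of the coordinates of `x`.

* `ν = n + c`: this is the inequality `θ h (x) ≤ deg Ram (L / K) + C [L : K]` for ALL points of
  `X = V ∩ {H₀ + H = 0}`, without an exceptional set, with the same constant `C` for all forms `H₀`
  of degree `e δ` over `k`. It holds in the same way for the points with `f (H (x), x) = 0` for all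
  weighted homogeneous polynomials `f (τ, x)` over `k`, if `f (τ, x)` is not zero identically in `τ`,
  for instance `B H + H₀ = 0` or `H ^ 2 + A H + B = 0` for forms `A`, `B` over `k`.
* `ν = n + c + 1`: the points of `V` and the divisor `{H₀ + H = 0}`. If `S` contains the places
  where a coefficient of `H₀` or of `H` is not integral, then `N` is the truncated counting function,
  the number of the places, not over `S`, with `|H₀ (x) + H (x)|_w < |x|_w ^ (e δ)`.

So the points of `X = V ∩ {H₀ + H = 0}` of degree `≤ g` have a bounded height for `θ = 2 g - 1`. If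
`X` is smooth, this gives the conjecture in full for `X`: for all divisors, all `S` and all `ε`, for
the points of degree `≤ g` (the heights of the points are bounded, so that the left side is bounded,
and the terms on the right side are not negative up to a bounded term).

Examples.
* `n + 1` parameters (Few, `c = 0`). Every `V` of dimension `n` has forms `z_0, ..., z_n` without
  common zero, for instance `n + 1` general forms of degree `δ`. Let `q = 4 n - 1`, let `P_j` be `q`
  general linear combinations of the `z_l`, let `Q_i = ∑ γ_ji P_j ^ e` (`i = 0, ..., n`), where all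
  minors of size `n + 1` of the matrix `γ` over `k` are different from zero, and let
  `e ≥ n (4 n - 1) ^ 3 (n + θ + 2)`. Then
  `X = V ∩ {H₀ + t_0 Q_0 + ... + t_n Q_n = 0}` is covered, for all forms `H₀` over `k` and all
  `t_0, ..., t_n` in `K` which are algebraically independent over `k` (`a_j = ∑ γ_ji t_i`). The
  number `n + 1` of the parameters does not depend on the degree `d = e δ` of the form, which has
  `C (n + d, n)` coefficients for `V = P^n`. In the same way `n + 2` parameters are enough for
  `X = V`, with `q = 4 n`.
* `n` parameters are not enough for the inequality with one constant `C` for all `G`: let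
  `V = P^n`, let `κ` be the algebraic closure of `k (t_1, ..., t_(n-1))`, `K = κ (t_n)` and let the
  `a_j` be in `k (t_1, ..., t_n)`. Then every element of `K` is algebraic over `k (x)`, where
  `x = (1 : t_1 ^ m : ... : t_n ^ m)`, and `h (x) = m`. So the number `n + 1` is optimal.
* `2 n` independent coefficients (All, `r = n`, `c = 0`, `q = 2 n`), with the smaller exponent
  `e ≥ n (n + 1) ^ 3 (n + θ + 2)`: for instance all hypersurfaces
  `H₀ + a_1 ℓ_1 ^ d + ... + a_(2n) ℓ_(2n) ^ d = 0` of `P^n`, where the `ℓ_j` are general linear
  forms over `k`. Here at least `2 n - 1` terms are necessary for large `θ`: for `H₀ = 0`,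
  `V = P^n` and `q = 2 m ≤ 2 n - 2` the subset
  `{a_(2i-1) P_(2i-1) ^ e + a_(2i) P_(2i) ^ e = 0}` of `X` contains curves whose degrees and genera
  do not depend on `e`.
* Complete intersections: `V = {H^(2) = ... = H^(p) = 0}` for arbitrary forms `H^(i)` over `k`; only
  the parameters of the last form have to be independent over the field `k`.

Proof: Let `w` be the number of algebraically independent coordinates of `x` over `k` and
`c' = ν - n`. Let `D_I` be `w + 1` derivations of `K` over `k` (`w + 2`, if `G + H (x)` is not zero).
The vectors `(D_I x)` satisfy linear relations whose coefficients are minors, of heights at most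
`(n + 1) h (x) + deg Ram (L / K) + C [L : K]` (and `N`, if `G + H (x)` is not zero); the elements
`D_I G` satisfy the same relations. So one has a relation `∑ M_j P_j (x) ^ e = 0` with such
coefficients `M_j`. By the theorem of Mason (with Wronskians) every index `j` with `M_j P_j (x) ≠ 0`
has a partner `i` with the same property such that `e h (P_i (x) : P_j (x))` is small. In the case
(Few) one takes general derivations; then `M_j = 0` for at most `w + c'` indices `j`, and the others
with `P_j (x) ≠ 0` can be divided into classes `P_j (x) = b_j P_s(j) (x)`, where `e h (1 : b_j)` is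
small, such that the number of the representatives `s (j)` is at most half the number of the
indices. In the case (All) one takes derivations with `D_I a_j = 0` for all `j` outside a given set
of `w + c' + 1` indices, so that there are at most `w + c'` classes. Let `y = z (x)`. The vector `y`
is a solution of the linear equations `(A_j - b_j A_s(j)) y' = 0`. If they had another solution
`y'`, then, with `τ_i = (A_i y') / (A_i y)` for the representatives `i`, every vector `A_j` would
satisfy the nontrivial linear equation `A_j (y' - τ_s(j) y) = 0`, whose coefficients depend on few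
numbers: `y`, `y'` and the `τ_i`. For general `A` this is impossible, since `w` of the coordinates
of `y` are algebraically independent over the field of the coefficients `A_jl`: the vectors `A_j`
and these coordinates depend on `q (r + 1) + w` parameters. So the solution is unique, and by
Cramer's rule `h (y)` is at most the sum of `r` of the heights `h (1 : b_j)`.
-/

namespace Pool.Agent.Results.MP_44a246_nt.FewParameters

open Pool.Agent.Lib.MP_44a246_nt MvPolynomial

universe u v w x

section

variable {k κ K L : Type*} [Field k] [Field κ] [Field K] [Field L] {N m q r : ℕ}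

/-- `K` is a function field of one variable over `κ`. -/
def IsFunctionField (κ K : Type*) [Field κ] [Field K] [Algebra κ K] : Prop :=
  ∃ t : K, Transcendental κ t ∧ FiniteDimensional (IntermediateField.adjoin κ {t}) K

/-- The closed subset `{g = 0}` of `P^N` has dimension at most `n`. -/
def DimLE (g : Fin m → MvPolynomial (Fin (N + 1)) k) (n : ℕ) : Prop :=
  ringKrullDim (MvPolynomial (Fin (N + 1)) k ⧸ Ideal.span (Set.range g)) ≤
    ((n + 1 : ℕ) : WithBot ℕ∞)

/-- The forms `z l` have no common zero on the closed subset `{g = 0}` of `P^N`. -/
def NoCommonZero (g : Fin m → MvPolynomial (Fin (N + 1)) k)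
    (z : Fin (r + 1) → MvPolynomial (Fin (N + 1)) k) : Prop :=
  ∀ y : Fin (N + 1) → AlgebraicClosure k, (∀ i, aeval y (g i) = 0) → (∀ l, aeval y (z l) = 0) →
    y = 0

/-- For all sets `S` of at most `s` indices the `a j`, `j ∈ S`, generate over `k` a field of
transcendence degree at least `|S| - c`. -/
def Indep (k : Type*) {K : Type*} [Field k] [Field K] [Algebra k K] (a : Fin q → K) (c s : ℕ) :
    Prop :=
  ∀ S : Finset (Fin q), S.card ≤ s → (S.card : Cardinal) ≤
    Algebra.trdeg k (IntermediateField.adjoin k (a '' (S : Set (Fin q)))) + c

/-- `x` is a point over `L` of `{g = 0}` with a coordinate `1` and `G ∈ L` is algebraic over the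
field generated over `k` by the coordinates of `x`. -/
def IsPoint [Algebra k L] (g : Fin m → MvPolynomial (Fin (N + 1)) k) (x : Fin (N + 1) → L) (G : L) :
    Prop :=
  (∃ l, x l = 1) ∧ (∀ i, aeval x (g i) = 0) ∧
    IsAlgebraic (IntermediateField.adjoin k (Set.range x)) G

/-- The value at the point `x` of `H = ∑ a j * P j ^ e`, where `P j = ∑ A j l * z l`. -/
noncomputable def val [Algebra k L] [Algebra K L] (z : Fin (r + 1) → MvPolynomial (Fin (N + 1)) k)
    (A : Fin q → Fin (r + 1) → k) (e : ℕ) (a : Fin q → K) (x : Fin (N + 1) → L) : L :=
  ∑ j, algebraMap K L (a j) * (∑ l, algebraMap k L (A j l) * aeval x (z l)) ^ e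

/-- The truncated counting function: the number of the places `w` of `L`, not over `S`, with
`|h|_w ≠ |x|_w ^ d`. (It is zero, if `h = 0` and there are infinitely many such places.) -/
noncomputable def trunc [Algebra κ K] [Algebra κ L] [Algebra K L] (S : Set (Place κ K)) (d : ℕ)
    (h : L) (x : Fin (N + 1) → L) : ℕ :=
  Set.ncard {w : Place κ L | (∀ v ∈ S, ¬ (w.1.comap (algebraMap K L)).IsEquiv v.1) ∧
    w.1 h ≠ vmax w.1 x ^ d}

/-- The inequality `θ h (x) ≤ N + deg Ram (L / K) + C [L : K]`, and the inequality
`(θ - 2 ([L : K] - 1)) h (x) ≤ N + C [L : K]` if `L` is generated over `K` by the quotients of the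
coordinates of `x`. -/
def Ineq [Algebra κ K] [Algebra κ L] [Algebra K L] (S : Set (Place κ K)) (θ d C : ℕ) (h : L)
    (x : Fin (N + 1) → L) : Prop :=
  (θ : ℤ) * height κ x ≤ trunc S d h x + ramDeg κ L K + C * Module.finrank K L ∧
  (IntermediateField.adjoin K {z : L | ∃ i j, z = x i / x j} = ⊤ →
    ((θ : ℤ) - 2 * ((Module.finrank K L : ℤ) - 1)) * height κ x ≤
      trunc S d h x + C * Module.finrank K L)

end

theorem result (q r : ℕ) : ∃ Φ : MvPolynomial (Fin q × Fin (r + 1)) ℚ, Φ ≠ 0 ∧
    ∀ (κ : Type u) (K : Type v) (k : Type x) [Field κ] [IsAlgClosed κ] [CharZero κ] [Field K]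
      [Algebra κ K] [Field k] [CharZero k] [Algebra k K], IsFunctionField κ K →
      Algebra.trdeg ℚ k < Cardinal.aleph0 →
      ∀ (N m n c ν δ θ e s : ℕ), 1 ≤ r → 1 ≤ δ → (ν = n + c ∨ ν = n + c + 1) →
        (s = ν + 1 ∧ 4 * r + ν ≤ q + n + 1 ∧ r * q ^ 3 * (n + θ + 2) ≤ e ∨
          s = q ∧ 2 * r + ν ≤ q + n ∧ r * (ν + 1) ^ 3 * (n + θ + 2) ≤ e) →
      ∀ (dg : Fin m → ℕ) (g : Fin m → MvPolynomial (Fin (N + 1)) k)
        (z : Fin (r + 1) → MvPolynomial (Fin (N + 1)) k) (A : Fin q → Fin (r + 1) → k)
        (a : Fin q → K),
        (∀ i, (g i).IsHomogeneous (dg i)) → DimLE g n → (∀ l, (z l).IsHomogeneous δ) →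
        NoCommonZero g z → aeval (fun p : Fin q × Fin (r + 1) => A p.1 p.2) Φ ≠ 0 →
        Indep k a c s →
        ∀ S : Set (Place κ K), S.Finite → ∃ C : ℕ, ∀ (L : Type w) [Field L] [Algebra K L]
          [FiniteDimensional K L] [Algebra κ L] [IsScalarTower κ K L] [Algebra k L]
          [IsScalarTower k K L] (x : Fin (N + 1) → L) (G : L), IsPoint g x G →
          (G + val z A e a x = 0 ∨ ν = n + c + 1) →
            Ineq S θ (e * δ) C (G + val z A e a x) x := by
  obtain ⟨Φ, hΦ, hmain⟩ := Pool.Agent.Lib.MP_44a246_ntFG.few_final₆.{u, v, w, x} q r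
  refine ⟨Φ, hΦ, ?_⟩
  intro κ K k _ _ _ _ _ _ _ _ hfin htk N m n c ν δ θ e s hr hδ hν hcase dg g z A a hg hdim hz hz0
    hA ha S hS
  have hcK : CharZero K := charZero_of_injective_algebraMap (algebraMap κ K).injective
  obtain ⟨C, hC⟩ := hmain (θ := θ) htk hr hδ hν hg hdim hz hz0 (A := A) hA hfin a ha hcase hS
  refine ⟨C, ?_⟩
  intro L _ _ _ _ _ _ _ x G hx hH
  refine hC L x hx.1 hx.2.1 (e * δ) G hx.2.2 _ ?_ hH
  unfold val
  congr 1
  refine Finset.sum_congr rfl fun j _ => ?_
  rw [Pool.Agent.Lib.MP_44a246_ntFG.aeval_linP]

end Pool.Agent.Results.MP_44a246_nt.FewParameters
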