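import Pool.Agent.Lib.MP_44a246_ntAL.HFinal

set_option autoImplicit false

open NumberField IsDedekindDomain MvPolynomial

namespace Pool.Agent.Results.MP_44a246_nt.HyperplanePoints

open Pool.Agent.Lib.MP_44a246_ntNF Pool.Agent.Lib.MP_44a246_ntNU

/-- Vojta's inequality with the truncated counting function for `q ≥ n + 1` hyperplanes in general
position in projective space of dimension `n` over a number field, points of degree at most `r`,
for all `n`, `q`, `r`: the number of exceptions saves a power of the height bound. -/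
theorem result :
    ∀ (K : Type*) [Field K] [NumberField K] (n q : ℕ), 1 ≤ n → n + 1 ≤ q →
      ∀ L : Fin q → Fin (n + 1) → K,
        (∀ J : Fin (n + 1) → Fin q, Function.Injective J →
          LinearIndependent K fun s => L (J s)) →
        ∃ (N : ℕ) (Ψ : Fin N → MvPolynomial (Fin (n + 1)) K), (n = 1 → N = 0) ∧
          (∀ i, Ψ i ≠ 0 ∧ (Ψ i).IsHomogeneous n) ∧
          ∀ S : Set (HeightOneSpectrum (𝓞 K)), S.Finite → ∀ r : ℕ, 1 ≤ r →
            ∀ ρ c η : ℝ, 0 < η → ∃ C δ : ℝ, 0 < δ ∧ ∀ B : ℝ, 1 ≤ B →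
              ∀ X : Finset (Σ E : IntermediateField K (AlgebraicClosure K),
                Projectivization E (Fin (n + 1) → E)),
              (∀ s ∈ X, ∃ _ : NumberField s.1, Module.finrank K s.1 ≤ r ∧
                IntermediateField.adjoin K {z | ∃ i k, z = s.2.rep i / s.2.rep k} = ⊤ ∧
                (∀ j, lin (up s.1 L j) s.2.rep ≠ 0) ∧ s.2.mulHeight ≤ B ∧
                truncCount (above K s.1 S) (up s.1 L) s.2.rep ≤ ρ * s.2.logHeight + c) →
              (r < n → ρ < q → (X.card : ℝ) ≤ C * B ^ ((n : ℝ) + 1 - δ)) ∧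
              (n ≤ r → ρ < q + 1 - n → (∀ s ∈ X, ∀ i, aeval s.2.rep (Ψ i) ≠ 0) →
                (X.card : ℝ) ≤ C * B ^ ((r : ℝ) + 1 - δ)) ∧
              (min n r = 1 → 1 < max n r → ρ ≤ q →
                (X.card : ℝ) ≤ C * B ^ ((max n r : ℕ) + 1 - min 1 (q - ρ) + η)) := by
  intro K _ _ n q hn hq L hL
  exact Pool.Agent.Lib.MP_44a246_ntAL.hyper_all hn hq L hL

end Pool.Agent.Results.MP_44a246_nt.HyperplanePoints
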